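import Pool.Agent.H64.LD.Main

/-!
# MP_deb9f2_nt: the prime-parity ladder crosses long intervals of levels many times, a positive proportion of the time

`ladder n = ∑_{i < n} (-1)^π(i)` is `y_n`.  For every `m` and `λ > 0`, for a positive proportion of the `x ≤ X`, with `π(x)` of
either parity, EVERY level `s` with `|s - y_x| ≤ λ log X` is attained at least `m` times at distance at most `C log X` from `x`.

Proof.  For a positive proportion of the primes `p_i` the next `m + 1` gaps are longer than `4 λ log X` and increase (library: the
Maynard type theorem for families of shifts with a multiscale Selberg amplitude, module `H91.CK.Run`).  On such a run the ladder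
spirals outwards: if `t_j` is the signed distance from the start of the `j`-th segment to the level `s` then
`t_(j+1) = g_j - t_j`, so every level met by the first segment is met by all the others.  By telescoping most of these runs have length at most
`C log X`.  A run of length `m + 1` at `i` contains runs of length `m` at `i` and at `i + 1`, which have different parities; the
points in the middle of the first segments are counted with the prime number theorem.
-/

set_option autoImplicit false

namespace Pool.Agent.Results.MP_deb9f2_nt.LevelCrossings

/-- the ladder `y_n = ∑_{1 ≤ i ≤ n - 1} (-1)^π(i)` -/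
def ladder (n : ℕ) : ℤ := ∑ i ∈ Finset.Icc 1 (n - 1), (-1) ^ Nat.primeCounting i

/-- For every `m` and `lam > 0` there are `c > 0` and `C` such that for all large `X` and both parities `e` at least `c X` of the
`x ≤ X` have `π(x) ≡ e (mod 2)` and the property: every level `s` with `|s - y_x| ≤ lam * log X` is attained by the ladder at
least `m` times at places within `C log X` of `x`. -/
theorem result (m : ℕ) (lam : ℝ) (hlam : 0 < lam) :
    ∃ c C X₀ : ℝ, 0 < c ∧ ∀ X : ℝ, X₀ ≤ X → ∀ e : ℕ, e = 0 ∨ e = 1 →
      c * X ≤ (Set.ncard {x : ℕ | 1 ≤ x ∧ (x : ℝ) ≤ X ∧ Nat.primeCounting x % 2 = e ∧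
        ∀ s : ℤ, |(s : ℝ) - ladder x| ≤ lam * Real.log X →
          m ≤ Set.ncard {x' : ℕ | 1 ≤ x' ∧ |(x' : ℝ) - x| ≤ C * Real.log X ∧ ladder x' = s}} : ℝ) :=
  Pool.Agent.H64.LD.main m hlam

end Pool.Agent.Results.MP_deb9f2_nt.LevelCrossings
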